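import Mathlib

namespace Pool.Agent.Results.MP_4521db_nt.Windows

/-- `k` lies in a window of width `K` around a fraction `u / v` of `n`, `0 ≤ u ≤ v`,
`1 ≤ v ≤ K`: the distance of `v k` and `u n` is at most `K`. -/
def Near (K n k : ℕ) : Prop :=
  ∃ u v : ℕ, u ≤ v ∧ 1 ≤ v ∧ v ≤ K ∧ |(v : ℤ) * k - (u : ℤ) * n| ≤ K

/-- The four numbers `3^n ± 3^k ± 1`, as integers. -/
def X (n k : ℕ) (s t : Bool) : ℤ :=
  3 ^ n + (if s then 1 else -1) * 3 ^ k + (if t then 1 else -1)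

/-- A prime factor of `X n k s t`. -/
def P (n k : ℕ) (s t : Bool) : ℕ := (X n k s t).natAbs.minFac

/-- The period: product of all `p - 1`. -/
def L (n : ℕ) : ℕ := ∏ k ∈ Finset.range n, ∏ s : Bool, ∏ t : Bool, (P n k s t - 1)

lemma X_le (n k : ℕ) (s t : Bool) (h : k < n) : X n k s t ≤ 3 ^ n + 3 ^ (n - 1) + 1 := by
  have h1 : (3 : ℤ) ^ k ≤ 3 ^ (n - 1) := pow_le_pow_right₀ (by norm_num) (by omega)
  have h0 : (0 : ℤ) < 3 ^ k := by positivity
  unfold X
  cases s <;> cases t <;> simp <;> linarith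

lemma le_X (n k : ℕ) (s t : Bool) (h : k < n) : 3 ^ n - 3 ^ (n - 1) - 1 ≤ X n k s t := by
  have h1 : (3 : ℤ) ^ k ≤ 3 ^ (n - 1) := pow_le_pow_right₀ (by norm_num) (by omega)
  have h0 : (0 : ℤ) < 3 ^ k := by positivity
  unfold X
  cases s <;> cases t <;> simp <;> linarith

lemma pow_pred (n : ℕ) (h : 1 ≤ n) : (3 : ℤ) ^ n = 3 * 3 ^ (n - 1) := by
  obtain ⟨m, rfl⟩ : ∃ m, n = m + 1 := ⟨n - 1, by omega⟩
  simp [pow_succ]; ring

lemma five_le (n k : ℕ) (s t : Bool) (hn : 2 ≤ n) (h : k < n) : 5 ≤ X n k s t := by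
  have h1 := le_X n k s t h
  have h2 := pow_pred n (by omega)
  have h3 : (3 : ℤ) ^ 1 ≤ 3 ^ (n - 1) := pow_le_pow_right₀ (by norm_num) (by omega)
  linarith

lemma P_prime (n k : ℕ) (s t : Bool) (hn : 2 ≤ n) (h : k < n) : (P n k s t).Prime := by
  have h1 := five_le n k s t hn h
  exact Nat.minFac_prime (by omega)

lemma P_dvd (n k : ℕ) (s t : Bool) : (P n k s t : ℤ) ∣ X n k s t := by
  have h : P n k s t ∣ (X n k s t).natAbs := Nat.minFac_dvd _
  exact Int.natCast_dvd.mpr h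

lemma P_le (n k : ℕ) (s t : Bool) (hn : 2 ≤ n) (h : k < n) : (P n k s t : ℤ) ≤ X n k s t := by
  have h1 := five_le n k s t hn h
  exact Int.le_of_dvd (by omega) (P_dvd n k s t)

lemma P_le_pow (n k : ℕ) (s t : Bool) (hn : 2 ≤ n) (h : k < n) :
    P n k s t ≤ 3 ^ (n + 1) := by
  have h1 := P_le n k s t hn h
  have h2 := X_le n k s t h
  have h3 := pow_pred n (by omega)
  have h4 : (0 : ℤ) < 3 ^ (n - 1) := by positivity
  have h5 : (1 : ℤ) ≤ 3 ^ (n - 1) := by linarith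
  have : (P n k s t : ℤ) ≤ 3 ^ (n + 1) := by
    rw [pow_succ]
    linarith
  exact_mod_cast this

lemma L_le (n : ℕ) (hn : 2 ≤ n) : L n ≤ 3 ^ (4 * n * (n + 1)) := by
  unfold L
  have h1 : ∀ k ∈ Finset.range n, (∏ s : Bool, ∏ t : Bool, (P n k s t - 1)) ≤ (3 ^ (n + 1)) ^ 4 := by
    intro k hk
    have hk' := Finset.mem_range.mp hk
    have a : ∀ s t : Bool, P n k s t - 1 ≤ 3 ^ (n + 1) := fun s t =>
      (Nat.sub_le _ _).trans (P_le_pow n k s t hn hk')
    calc (∏ s : Bool, ∏ t : Bool, (P n k s t - 1))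
        ≤ ∏ s : Bool, ∏ t : Bool, 3 ^ (n + 1) :=
          Finset.prod_le_prod' (fun s _ => Finset.prod_le_prod' (fun t _ => a s t))
      _ = (3 ^ (n + 1)) ^ 4 := by simp; ring
  calc _ ≤ ∏ k ∈ Finset.range n, (3 ^ (n + 1)) ^ 4 := Finset.prod_le_prod' h1
    _ = 3 ^ (4 * n * (n + 1)) := by
      rw [Finset.prod_const, Finset.card_range, ← pow_mul, ← pow_mul]
      congr 1; ring

lemma L_pos (n : ℕ) (hn : 2 ≤ n) : 0 < L n := by
  unfold L
  refine Finset.prod_pos (fun k hk => Finset.prod_pos (fun s _ => Finset.prod_pos (fun t _ => ?_)))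
  have := (P_prime n k s t hn (Finset.mem_range.mp hk)).two_le
  omega

lemma dvd_L (n k : ℕ) (s t : Bool) (h : k < n) : P n k s t - 1 ∣ L n := by
  unfold L
  refine dvd_trans ?_ (Finset.dvd_prod_of_mem _ (Finset.mem_range.mpr h))
  refine dvd_trans ?_ (Finset.dvd_prod_of_mem _ (Finset.mem_univ s))
  exact Finset.dvd_prod_of_mem (fun t => P n k s t - 1) (Finset.mem_univ t)

/-- Fermat: `3^(a + b) ≡ 3^a mod p` if `p - 1 ∣ b` and `a ≥ 1` or `b = 0`. -/
lemma fermat (p : ℕ) (hp : p.Prime) (a b : ℕ) (hb : p - 1 ∣ b) (ha : 1 ≤ a ∨ b = 0) :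
    (p : ℤ) ∣ 3 ^ (a + b) - 3 ^ a := by
  rcases Nat.eq_zero_or_pos b with h0 | hpos
  · subst h0; simp
  have ha' : 1 ≤ a := by omega
  have := Fact.mk hp
  rw [← (ZMod.intCast_zmod_eq_zero_iff_dvd _ p)]
  push_cast
  rw [sub_eq_zero]
  by_cases h3 : (3 : ZMod p) = 0
  · rw [h3, zero_pow (by omega), zero_pow (by omega)]
  · obtain ⟨c, rfl⟩ := hb
    rw [pow_add, pow_mul, ZMod.pow_card_sub_one_eq_one h3, one_pow, mul_one]

/-- The main step: `p ∣ X n k s t` and `X n k s t` is larger than `p`. -/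
lemma step (n₀ n k₀ k : ℕ) (s t : Bool) (hn₀ : 2 ≤ n₀) (hk₀ : k₀ < n₀) (hn : n₀ < n) (hk : k < n)
    (h1 : L n₀ ∣ n - n₀) (h2 : k₀ ≤ k) (h3 : L n₀ ∣ k - k₀) (h4 : 1 ≤ k₀ ∨ k = k₀) :
    ¬ Prime (X n k s t) := by
  intro hpr
  have hp := P_prime n₀ k₀ s t hn₀ hk₀
  set p := P n₀ k₀ s t with hpdef
  have hpL : p - 1 ∣ L n₀ := dvd_L n₀ k₀ s t hk₀
  have e1 : (p : ℤ) ∣ 3 ^ n - 3 ^ n₀ := by
    have := fermat p hp n₀ (n - n₀) (hpL.trans h1) (Or.inl (by omega))
    rwa [Nat.add_sub_cancel' hn.le] at this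
  have e2 : (p : ℤ) ∣ 3 ^ k - 3 ^ k₀ := by
    have := fermat p hp k₀ (k - k₀) (hpL.trans h3) (h4.imp id (fun h => by omega))
    rwa [Nat.add_sub_cancel' h2] at this
  have e3 : (p : ℤ) ∣ X n k s t := by
    have e4 : X n k s t = X n₀ k₀ s t + ((3 ^ n - 3 ^ n₀) +
        (if s then 1 else -1) * (3 ^ k - 3 ^ k₀)) := by
      unfold X; ring
    rw [e4]
    exact dvd_add (P_dvd n₀ k₀ s t) (dvd_add e1 (Dvd.dvd.mul_left e2 _))
  have hle : (p : ℤ) ≤ 3 ^ n₀ + 3 ^ (n₀ - 1) + 1 :=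
    (P_le n₀ k₀ s t hn₀ hk₀).trans (X_le n₀ k₀ s t hk₀)
  have hge := le_X n k s t hk
  have g1 := pow_pred n₀ (by omega)
  have g2 := pow_pred n (by omega)
  have g3 : (3 : ℤ) ^ n₀ ≤ 3 ^ (n - 1) := pow_le_pow_right₀ (by norm_num) (by omega)
  have g4 : (3 : ℤ) ^ 1 ≤ 3 ^ (n₀ - 1) := pow_le_pow_right₀ (by norm_num) (by omega)
  have hlt : (p : ℤ) < X n k s t := by linarith
  have hn1 : ¬ IsUnit (p : ℤ) := by
    rw [Int.isUnit_iff]
    have := hp.two_le
    omega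
  rcases hpr.irreducible.isUnit_or_isUnit (Int.ediv_mul_cancel e3).symm with h | h
  · rcases Int.isUnit_iff.mp h with h' | h'
    · have := Int.ediv_mul_cancel e3
      rw [h'] at this
      linarith
    · have := Int.ediv_mul_cancel e3
      rw [h'] at this
      have := hp.pos
      linarith
  · exact hn1 h

lemma nat_of_int {m : ℕ} (h : ¬ Prime ((m : ℕ) : ℤ)) : ¬ m.Prime :=
  fun h' => h (Nat.prime_iff_prime_int.mp h')

lemma four (n k : ℕ) (hk : k < n) (h : ∀ s t : Bool, ¬ Prime (X n k s t)) :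
    ¬ (3 ^ n + 3 ^ k + 1).Prime ∧ ¬ (3 ^ n + 3 ^ k - 1).Prime ∧
      ¬ (3 ^ n - 3 ^ k + 1).Prime ∧ ¬ (3 ^ n - 3 ^ k - 1).Prime := by
  have h1 : (3 : ℕ) ^ k < 3 ^ n := Nat.pow_lt_pow_right (by norm_num) hk
  have h0 : 0 < (3 : ℕ) ^ k := by positivity
  refine ⟨nat_of_int ?_, nat_of_int ?_, nat_of_int ?_, nat_of_int ?_⟩
  · have := h true true
    unfold X at this
    push_cast
    simpa using this
  · have := h true false
    unfold X at this
    rw [Nat.cast_sub (by omega)]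
    push_cast
    simpa [sub_eq_add_neg] using this
  · have := h false true
    unfold X at this
    push_cast [Nat.cast_sub h1.le]
    simpa [sub_eq_add_neg] using this
  · have := h false false
    unfold X at this
    rw [Nat.cast_sub (by omega), Nat.cast_sub h1.le]
    push_cast
    simpa [sub_eq_add_neg] using this

/-- For all `K ≥ 1` and `n₀ > K` there is a modulus `M` such that for all `n ≡ n₀ mod M`, `n > n₀`,
none of the four numbers `3^n ± 3^k ± 1` is prime for any `k < n` near a fraction of `n` with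
denominator at most `K`. -/
theorem result (K n₀ : ℕ) (hK : 1 ≤ K) (hn₀ : K < n₀) :
    ∃ M : ℕ, 1 ≤ M ∧ M ≤ K.factorial * 3 ^ (4 * n₀ * (n₀ + 1)) ∧
      ∀ n : ℕ, n₀ < n → n ≡ n₀ [MOD M] → ∀ k : ℕ, k < n → Near K n k →
        ¬ (3 ^ n + 3 ^ k + 1).Prime ∧ ¬ (3 ^ n + 3 ^ k - 1).Prime ∧
          ¬ (3 ^ n - 3 ^ k + 1).Prime ∧ ¬ (3 ^ n - 3 ^ k - 1).Prime := by
  have h2 : 2 ≤ n₀ := by omega
  refine ⟨K.factorial * L n₀, Nat.mul_pos K.factorial_pos (L_pos n₀ h2),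
    Nat.mul_le_mul_left _ (L_le n₀ h2), ?_⟩
  rintro n hn hmod k hk ⟨u, v, huv, hv1, hvK, hwin⟩
  refine four n k hk (fun s t => ?_)
  -- n = n₀ + K! L c
  have hd : K.factorial * L n₀ ∣ n - n₀ := (Nat.modEq_iff_dvd' hn.le).mp hmod.symm
  obtain ⟨c, hc⟩ := hd
  obtain ⟨w, hw⟩ : v ∣ K.factorial := Nat.dvd_factorial (by omega) hvK
  have hn' : n = n₀ + v * (w * L n₀ * c) := by
    have : n = n₀ + K.factorial * L n₀ * c := by omega
    rw [this, hw]; ring
  set g := w * L n₀ * c with hg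
  -- k₀ = k - u g
  have hLg : L n₀ ∣ g := ⟨w * c, by rw [hg]; ring⟩
  have hab := abs_le.mp hwin
  obtain ⟨hl, hr⟩ := hab
  rw [hn'] at hl hr
  push_cast at hl hr
  rcases Nat.eq_zero_or_pos u with hu | hu
  · -- u = 0
    subst hu
    have hvk : (v : ℤ) * k ≤ K := by simpa using hr
    have hkK : (k : ℤ) ≤ K := by nlinarith
    have hkn : k < n₀ := by
      have : k ≤ K := by exact_mod_cast hkK
      omega
    exact step n₀ n k k s t h2 hkn hn hk
      (by rw [hn', Nat.add_sub_cancel_left]; exact Dvd.dvd.mul_left hLg _) le_rfl (by simp)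
      (Or.inr rfl)
  · have hkey : (v : ℤ) * (k - u * g) = v * k - u * (n₀ + v * g) + u * n₀ := by ring
    have hupper : (v : ℤ) * (k - u * g) ≤ u * n₀ + K := by rw [hkey]; linarith
    have hlower : (u : ℤ) * n₀ - K ≤ v * (k - u * g) := by rw [hkey]; linarith
    have hvpos : (0 : ℤ) < v := by exact_mod_cast hv1
    have hupos : (1 : ℤ) ≤ u := by exact_mod_cast hu
    have hKn : (K : ℤ) < n₀ := by exact_mod_cast hn₀
    have hpos : 0 < (k : ℤ) - u * g := by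
      have : 0 < (v : ℤ) * (k - u * g) := by nlinarith
      exact (mul_pos_iff_of_pos_left hvpos).mp this
    have hlt : (k : ℤ) - u * g < n₀ := by
      rcases lt_or_eq_of_le huv with h | h
      · have h' : (u : ℤ) + 1 ≤ v := by exact_mod_cast h
        have : (v : ℤ) * (k - u * g) < v * n₀ := by nlinarith
        exact (mul_lt_mul_iff_right₀ hvpos).mp this
      · subst h
        have : (k : ℤ) < n₀ + u * g := by rw [hn'] at hk; exact_mod_cast hk
        linarith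
    have hle : u * g ≤ k := by
      have : (u : ℤ) * g < k := by linarith
      exact_mod_cast this.le
    have hcast : ((k - u * g : ℕ) : ℤ) = k - u * g := by push_cast [Nat.cast_sub hle]; ring
    refine step n₀ n (k - u * g) k s t h2 ?_ hn hk
      (by rw [hn', Nat.add_sub_cancel_left]; exact Dvd.dvd.mul_left hLg _)
      (Nat.sub_le _ _) ?_ (Or.inl ?_)
    · have : ((k - u * g : ℕ) : ℤ) < n₀ := by rw [hcast]; exact hlt
      exact_mod_cast this
    · rw [Nat.sub_sub_self hle]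
      exact Dvd.dvd.mul_left hLg _
    · have : (0 : ℤ) < ((k - u * g : ℕ) : ℤ) := by rw [hcast]; exact hpos
      have : 0 < k - u * g := by exact_mod_cast this
      omega

end Pool.Agent.Results.MP_4521db_nt.Windows
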